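import Pool.Agent.PST.StmtsET3
import Pool.Agent.Helper5_PSS.TRS
import Pool.Agent.Helper95_PSS.IND

/-!
# EQC: equivalent and conjugate idempotents have the same class and the same relative trace
-/

set_option autoImplicit false

open scoped BigOperators TensorProduct

noncomputable section

namespace Pool.Agent.PST.ET.H32

open Pool.Agent.PSS (RF FxR cw)
open Pool.Agent.PSS.S5 (Eqi)

theorem eqc_rf {F V H K : Type} [Field F] [CommGroup V] [Fintype V] [Ring H] [Algebra F H]
    [Fintype K] (α : V →* H) (lam : H →ₗ[F] F) (x y : K → H) (s : MulAut V) (y0 y0' : H)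
    (hR : RF F α lam x y) (h1 : y0 * y0' = 1) (h2 : y0' * y0 = 1)
    (h3 : ∀ u, y0 * α u = α (s u) * y0) :
    RF F α lam (fun k => x k * y0) (fun k => y0' * y k) := by
  have h4 : ∀ u, α u * y0' = y0' * α (s u) := by
    intro u
    calc α u * y0' = y0' * y0 * α u * y0' := by rw [h2, one_mul]
      _ = y0' * (y0 * α u) * y0' := by rw [mul_assoc y0' y0 (α u)]
      _ = y0' * (α (s u) * y0) * y0' := by rw [h3]
      _ = y0' * α (s u) * (y0 * y0') := by simp only [mul_assoc]
      _ = y0' * α (s u) := by rw [h1, mul_one]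
  refine ⟨hR.sym, ?_, ?_⟩
  · intro a
    have e1 : ∀ k, ∑ v, lam (α v⁻¹ * (y0' * y k) * a) • (x k * y0 * α v) =
        (∑ v, lam (α v⁻¹ * y k * (a * y0')) • (x k * α v)) * y0 := by
      intro k
      rw [Finset.sum_mul]
      refine Fintype.sum_equiv s.toEquiv _ _ fun v => ?_
      have e2 : lam (α v⁻¹ * (y0' * y k) * a) = lam (α (s v)⁻¹ * y k * (a * y0')) := by
        have e3 : α v⁻¹ * (y0' * y k) * a = y0' * (α (s v)⁻¹ * y k * a) := by
          rw [← mul_assoc (α v⁻¹), h4, map_inv s v]
          simp only [mul_assoc]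
        rw [e3, hR.sym]
        congr 1
        simp only [mul_assoc]
      have e4 : x k * y0 * α v = x k * α (s v) * y0 := by
        rw [mul_assoc, h3, ← mul_assoc]
      rw [e2, e4]
      change _ = (lam (α (s v)⁻¹ * y k * (a * y0')) • (x k * α (s v))) * y0
      rw [smul_mul_assoc]
    simp only [e1]
    rw [← Finset.sum_mul, hR.e1, mul_assoc, h2, mul_one]
  · intro a
    have e1 : ∀ k, ∑ v, lam (a * (x k * y0 * α v)) • (α v⁻¹ * (y0' * y k)) =
        y0' * (∑ v, lam (y0 * a * (x k * α v)) • (α v⁻¹ * y k)) := by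
      intro k
      rw [Finset.mul_sum]
      refine Fintype.sum_equiv s.toEquiv _ _ fun v => ?_
      have e2 : lam (a * (x k * y0 * α v)) = lam (y0 * a * (x k * α (s v))) := by
        have e3 : a * (x k * y0 * α v) = a * (x k * α (s v)) * y0 := by
          rw [mul_assoc (x k), h3]
          simp only [mul_assoc]
        rw [e3, hR.sym]
        congr 1
        simp only [mul_assoc]
      have e4 : α v⁻¹ * (y0' * y k) = y0' * (α (s v)⁻¹ * y k) := by
        rw [← mul_assoc (α v⁻¹), h4, map_inv s v]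
        simp only [mul_assoc]
      rw [e2, e4]
      change _ = y0' * (lam (y0 * a * (x k * α (s v))) • (α (s v)⁻¹ * y k))
      rw [mul_smul_comm]
    simp only [e1]
    rw [← Finset.mul_sum, hR.e2, ← mul_assoc, h2, one_mul]

theorem eqc : EqcStmt := by
  intro F V H K _ _ _ _ _ _ α lam x y s j j' y0 y0' hR h1 h2 h3 hj hj' hE
  obtain ⟨p, hp, q, hq, _, _, _, _, hpq, hqp⟩ := hE
  refine ⟨?_, ?_⟩
  · have e1 : j - j' = (y0' * (y0 * j) - (y0 * j) * y0') + (p * q - q * p) := by
      rw [hpq, hqp, ← mul_assoc, h2, one_mul]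
      abel
    rw [e1]
    exact Submodule.add_mem _ (Submodule.subset_span ⟨y0', y0 * j, rfl⟩)
      (Submodule.subset_span ⟨p, q, rfl⟩)
  · have e1 := Pool.Agent.PSS.S0.H5.trs F V H K α lam x y hR p hp q hq
    rw [hpq, hqp] at e1
    rw [← e1]
    have e2 := Pool.Agent.PSS.S0.H95.ind F V H K K α lam x y (fun k => x k * y0)
      (fun k => y0' * y k) hR (eqc_rf α lam x y s y0 y0' hR h1 h2 h3) j hj
    rw [e2]
    refine Finset.sum_congr rfl fun k _ => ?_
    simp only [mul_assoc]

end Pool.Agent.PST.ET.H32
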