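import Pool.Agent.PST.StmtsET3

/-!
# TWF: matrices over `Hs` are a deformation of `N ⊗ H`
-/

set_option autoImplicit false

open scoped BigOperators TensorProduct

noncomputable section

namespace Pool.Agent.PST.ET.H32

open Pool.Agent.PFD.D2 (Cdv FibG)

/-- the isomorphism of `Mat_n(H)` onto `N ⊗ H` -/
def twTh (n : ℕ) (F N H : Type) [Field F] [Ring N] [Algebra F N] [Ring H] [Algebra F H]
    (e : N ≃ₐ[F] Matrix (Fin n) (Fin n) F) : Matrix (Fin n) (Fin n) H ≃ₐ[F] N ⊗[F] H :=
  ((matrixEquivTensor (Fin n) F H).trans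
    (Algebra.TensorProduct.comm F H (Matrix (Fin n) (Fin n) F))).trans
    (Algebra.TensorProduct.congr e.symm AlgEquiv.refl)

theorem twTh_apply (n : ℕ) (F N H : Type) [Field F] [Ring N] [Algebra F N] [Ring H] [Algebra F H]
    (e : N ≃ₐ[F] Matrix (Fin n) (Fin n) F) (X : Matrix (Fin n) (Fin n) H) :
    twTh n F N H e X = ∑ a, ∑ b, e.symm (Matrix.single a b 1) ⊗ₜ[F] X a b := by
  rw [twTh, AlgEquiv.trans_apply, AlgEquiv.trans_apply, matrixEquivTensor_apply, map_sum, map_sum,
    Fintype.sum_prod_type]
  refine Finset.sum_congr rfl fun a _ => Finset.sum_congr rfl fun b _ => ?_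
  rw [Algebra.TensorProduct.comm_tmul, Algebra.TensorProduct.congr_apply,
    Algebra.TensorProduct.map_tmul]
  rfl

theorem twf : TwfStmt := by
  intro n R F N H Hs _ _ _ _ _ _ _ _ c f e
  have hsc : ∀ r : R, f.q.mapMatrix (algebraMap R (Matrix (Fin n) (Fin n) Hs) r) =
      algebraMap F (Matrix (Fin n) (Fin n) H) (c.κ r) := by
    intro r
    ext a b
    rw [RingHom.mapMatrix_apply, Matrix.map_apply, Matrix.algebraMap_matrix_apply,
      Matrix.algebraMap_matrix_apply]
    split_ifs with h
    · exact f.sc r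
    · exact map_zero f.q
  refine ⟨{ q := ((twTh n F N H e : Matrix (Fin n) (Fin n) H →+* N ⊗[F] H)).comp f.q.mapMatrix
            sc := ?_
            surj := ?_
            ker := ?_ }, ?_⟩
  · intro r
    rw [RingHom.comp_apply, hsc]
    exact (twTh n F N H e).commutes (c.κ r)
  · intro z
    obtain ⟨Y, hY⟩ := (twTh n F N H e).surjective z
    choose g hg using f.surj
    refine ⟨Matrix.of fun a b => g (Y a b), ?_⟩
    rw [RingHom.comp_apply]
    have h1 : f.q.mapMatrix (Matrix.of fun a b => g (Y a b)) = Y := by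
      ext a b
      rw [RingHom.mapMatrix_apply, Matrix.map_apply]
      exact hg _
    rw [h1]
    exact hY
  · intro X hX
    rw [RingHom.comp_apply] at hX
    have h1 : f.q.mapMatrix X = 0 := by
      have h2 : twTh n F N H e (f.q.mapMatrix X) = 0 := hX
      exact (map_eq_zero_iff _ (twTh n F N H e).injective).1 h2
    have h3 : ∀ a b, ∃ y, X a b = c.π • y := by
      intro a b
      refine f.ker _ ?_
      have h4 := congrFun (congrFun h1 a) b
      rw [RingHom.mapMatrix_apply, Matrix.map_apply] at h4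
      exact h4
    choose g hg using h3
    refine ⟨Matrix.of fun a b => g a b, ?_⟩
    ext a b
    rw [Matrix.smul_apply]
    exact hg a b
  · intro X
    exact twTh_apply n F N H e (f.q.mapMatrix X)

end Pool.Agent.PST.ET.H32
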